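import Pool.Agent.Helper61.P3.St1

/-!
# Project P3 (MP_cb927e_an): module GR (grids on the line)
-/

set_option autoImplicit false

open MeasureTheory Set Filter Topology
open scoped ENNReal RealInnerProductSpace

namespace Pool.Agent.Helper1.P3

open Pool.Agent.Helper61.P3 Pool.Agent.Helper20.RG Pool.Agent.Helper20.EQ
open Pool.Agent.Helper68.LM (Pl BB Bd Av HL ft fm DQ)
open Pool.Agent.Helper68.EP (elt GapP)

private lemma two_zpow_pos (a : ℤ) : (0 : ℝ) < (2 : ℝ) ^ a := zpow_pos two_pos a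

private lemma mem_Ia_iff (κ : ℤ → ℝ) (a : ℤ) (t r : ℝ) :
    r ∈ Ia κ a t ↔ ⌊(r - κ a) / (2 : ℝ) ^ a⌋ = ⌊(t - κ a) / (2 : ℝ) ^ a⌋ := by
  have hp := two_zpow_pos a
  rw [Int.floor_eq_iff, le_div_iff₀ hp, div_lt_iff₀ hp]
  unfold Ia lft
  rw [mem_Ico]
  constructor
  · rintro ⟨h1, h2⟩
    constructor
    · linarith
    · rw [add_mul, one_mul]; linarith
  · rintro ⟨h1, h2⟩
    rw [add_mul, one_mul] at h2
    constructor <;> linarith

private lemma floor_half (x y : ℝ) (n : ℤ) (h : ⌊x⌋ = ⌊y⌋) :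
    ⌊(x - n) / 2⌋ = ⌊(y - n) / 2⌋ := by
  have key : ∀ z : ℝ, ⌊(z - n) / 2⌋ = (⌊z⌋ - n) / 2 := by
    intro z
    have h1 : ⌊(z - n) / ((2 : ℕ) : ℝ)⌋ = ⌊z - n⌋ / ((2 : ℕ) : ℤ) := Int.floor_div_natCast _ _
    rw [Int.floor_sub_intCast] at h1
    exact_mod_cast h1
  rw [key, key, h]

private lemma sub_succ {κ : ℤ → ℝ} (hκ : Gr κ) (a : ℤ) (t : ℝ) : Ia κ a t ⊆ Ia κ (a + 1) t := by
  intro r hr
  rw [mem_Ia_iff] at hr ⊢
  obtain ⟨n, hn⟩ := hκ a
  have hp := two_zpow_pos a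
  have e : ∀ s : ℝ, (s - κ (a + 1)) / (2 : ℝ) ^ (a + 1) = ((s - κ a) / (2 : ℝ) ^ a - n) / 2 := by
    intro s
    rw [hn, zpow_add_one₀ (by norm_num : (2 : ℝ) ≠ 0)]
    field_simp
    ring
  rw [e, e]
  exact floor_half _ _ n hr

private lemma gr_gk (i : ℕ) (o : ℝ) : Gr (gk i o) := by
  intro a
  unfold gk
  have h2 : ((-2 : ℝ)) ^ (a + 1) = (-2 : ℝ) ^ a * (-2) := zpow_add_one₀ (by norm_num) a
  rcases Int.even_or_odd a with h | h
  · refine ⟨-(i : ℤ), ?_⟩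
    rw [h2, h.neg_zpow]
    push_cast
    ring
  · refine ⟨(i : ℤ), ?_⟩
    rw [h2, h.neg_zpow]
    push_cast
    ring

private lemma end_pt (κ : ℤ → ℝ) (a : ℤ) (x y : ℝ) (h : ¬ Icc x y ⊆ Ia κ a x) :
    ∃ n : ℤ, x < κ a + (n : ℝ) * (2 : ℝ) ^ a ∧ κ a + (n : ℝ) * (2 : ℝ) ^ a ≤ y := by
  have hp := two_zpow_pos a
  rw [not_subset] at h
  obtain ⟨r, hr, hr2⟩ := h
  have hx : x ∈ Ia κ a x := (mem_Ia_iff κ a x x).2 rfl
  unfold Ia at hx hr2
  rw [mem_Ico] at hx hr2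
  have h1 : lft κ a x + (2 : ℝ) ^ a ≤ r := by
    by_contra hc
    exact hr2 ⟨hx.1.trans hr.1, not_le.1 hc⟩
  refine ⟨⌊(x - κ a) / (2 : ℝ) ^ a⌋ + 1, ?_, ?_⟩
  · have := hx.2
    unfold lft at this
    push_cast
    linarith
  · unfold lft at h1
    push_cast
    linarith [hr.2]

/-- module GR -/
theorem hGR : StGR := by
  refine ⟨?_, gr_gk, ?_⟩
  · intro κ hκ a t
    have hp := two_zpow_pos a
    refine ⟨(mem_Ia_iff κ a t t).2 rfl, measurableSet_Ico, ?_, ?_, ?_, ?_⟩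
    · unfold Ia
      rw [Real.volume_Ico, add_sub_cancel_left]
    · unfold lft
      apply Measurable.const_add
      apply Measurable.mul_const
      have h1 : Measurable fun t : ℝ => ⌊(t - κ a) / (2 : ℝ) ^ a⌋ :=
        Int.measurable_floor.comp ((measurable_id.sub_const _).div_const _)
      exact measurable_from_top.comp h1
    · intro r hr
      have h1 : lft κ a r = lft κ a t := by
        unfold lft
        rw [(mem_Ia_iff κ a t r).1 hr]
      refine ⟨h1, ?_⟩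
      unfold Ia
      rw [h1]
    · intro b hb
      induction b, hb using Int.le_induction with
      | base => exact Subset.rfl
      | succ n _ ih => exact ih.trans (sub_succ hκ n t)
  · intro o x b
    by_contra hno
    push Not at hno
    obtain ⟨n, hn1, hn2⟩ := end_pt _ _ _ _ (hno 0 (by norm_num))
    obtain ⟨m, hm1, hm2⟩ := end_pt _ _ _ _ (hno 1 (by norm_num))
    have hp := two_zpow_pos b
    have h4 : (2 : ℝ) ^ (b + 4) = 16 * (2 : ℝ) ^ b := by
      rw [zpow_add₀ (by norm_num : (2 : ℝ) ≠ 0)]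
      norm_num
      ring
    unfold gk at hn1 hn2 hm1 hm2
    rw [h4] at hn1 hn2 hm1 hm2
    push_cast at hn1 hn2 hm1 hm2
    have key : ∀ q : ℤ, (q = 1 ∨ q = -1) → (-2 : ℝ) ^ (b + 4) = q * (16 * (2 : ℝ) ^ b) → False := by
      intro q hq hq2
      rw [hq2] at hn1 hn2 hm1 hm2
      have h5 : ((3 * (m - n) + q : ℤ) : ℝ) * (2 : ℝ) ^ b < 1 * (2 : ℝ) ^ b := by
        push_cast
        nlinarith
      have h6 : (-1 : ℝ) * (2 : ℝ) ^ b < ((3 * (m - n) + q : ℤ) : ℝ) * (2 : ℝ) ^ b := by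
        push_cast
        nlinarith
      have h7 : ((3 * (m - n) + q : ℤ) : ℝ) < ((1 : ℤ) : ℝ) := by
        push_cast at h5 ⊢
        exact lt_of_mul_lt_mul_right h5 hp.le
      have h8 : ((-1 : ℤ) : ℝ) < ((3 * (m - n) + q : ℤ) : ℝ) := by
        push_cast at h6 ⊢
        exact lt_of_mul_lt_mul_right h6 hp.le
      have h9 := Int.cast_lt.1 h7
      have h10 := Int.cast_lt.1 h8
      omega
    rcases Int.even_or_odd (b + 4) with h | h
    · exact key 1 (Or.inl rfl) (by rw [h.neg_zpow, h4]; push_cast; ring)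
    · exact key (-1) (Or.inr rfl) (by rw [h.neg_zpow, h4]; push_cast; ring)

end Pool.Agent.Helper1.P3
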